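import Pool.Agent.H.MP_25eb51_an.E

namespace Pool.Agent.Results.MP_25eb51_an.No

open MeasureTheory Set Filter Topology Polynomial

noncomputable def energy (D : ℝ) (ν : Measure ℝ) : ENNReal :=
  ∫⁻ x, ∫⁻ y, (if x = y then (⊤ : ENNReal) else ENNReal.ofReal (Real.log (D / |x - y|))) ∂ν ∂ν

def comp {R : Type} [CommSemiring R] (f : ℕ → R[X]) : ℕ → R → R
  | 0, z => (f 0).eval z
  | n + 1, z => (f (n + 1)).eval (comp f n z)

noncomputable def stereo (w : ℂ) : ℂ × ℝ :=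
  (2 * w / (‖w‖ ^ 2 + 1), (‖w‖ ^ 2 - 1) / (‖w‖ ^ 2 + 1))

def Fatou (f : ℕ → ℂ[X]) (z : ℂ) : Prop :=
  ∃ U ∈ 𝓝 z, ∀ φ : ℕ → ℕ, StrictMono φ → ∃ ψ : ℕ → ℕ, StrictMono ψ ∧ ∃ G : ℂ → ℂ × ℝ,
    TendstoLocallyUniformlyOn (fun n w => stereo (comp f (φ (ψ n)) w)) G atTop U

def Admissible (T : ℝ[X]) : Prop :=
  2 ≤ T.natDegree ∧ T.roots.toFinset.card = T.natDegree ∧
    ∀ y, T.derivative.eval y = 0 → 1 ≤ |T.eval y|

lemma comp_eq {R : Type} [CommSemiring R] (f : ℕ → R[X]) {z w : R}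
    (h : (f 0).eval z = (f 0).eval w) (n : ℕ) : comp f n z = comp f n w := by
  induction n with
  | zero => exact h
  | succ n ih => simp only [comp, ih]

lemma fatou_sat {f : ℕ → ℂ[X]} (hf : 2 ≤ (f 0).natDegree) {z w : ℂ}
    (h : (f 0).eval z = (f 0).eval w) (hz : Fatou f z) : Fatou f w := by
  obtain ⟨U, hU, H⟩ := hz
  obtain ⟨C, c1, c2, c3⟩ := local_compact_nhds hU
  have o := (isOpenQuotientMap_eval (f 0) (by omega)).isOpenMap.image_mem_nhds c1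
  rw [h] at o
  have ex : ∀ u, ∃ v, u ∈ (f 0).eval ⁻¹' ((f 0).eval '' C) → v ∈ C ∧ (f 0).eval v = (f 0).eval u :=
    fun u => by
      by_cases k : u ∈ (f 0).eval ⁻¹' ((f 0).eval '' C)
      · exact k.imp fun v hv _ => hv
      · exact ⟨0, fun a => absurd a k⟩
  choose r hr using ex
  refine ⟨_, (f 0).continuous.continuousAt.preimage_mem_nhds o, fun φ hφ => ?_⟩
  obtain ⟨ψ, hψ, G, hG⟩ := H φ hφ
  refine ⟨ψ, hψ, G ∘ r, TendstoUniformlyOn.tendstoLocallyUniformlyOn ?_⟩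
  refine ((((tendstoLocallyUniformlyOn_iff_tendstoUniformlyOn_of_compact c3).1 (hG.mono c2)).comp
    r).mono fun u hu => (hr u hu).1).congr (Eventually.of_forall fun n u hu => ?_)
  simp only [Function.comp, comp_eq f (hr u hu).2]

theorem result : ∃ (K : Set ℝ) (D : ℝ) (μ : Measure ℝ), IsCompact K ∧ Metric.diam K < D ∧
    IsProbabilityMeasure μ ∧ μ Kᶜ = 0 ∧ energy D μ < ⊤ ∧
    (∀ ν : Measure ℝ, IsProbabilityMeasure ν → ν Kᶜ = 0 → energy D μ ≤ energy D ν) ∧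
    (∀ z : ℂ, Integrable (fun y : ℝ => Real.log ‖z - y‖) μ) ∧
    Continuous (fun z : ℂ => ∫ y : ℝ, Real.log ‖z - y‖ ∂μ) ∧
    (∀ x ∈ K, ∫ y : ℝ, Real.log ‖(x : ℂ) - y‖ ∂μ = Real.log D - (energy D μ).toReal) ∧
    (∀ c ∉ K, ∃ r : ℚ, μ.real (Icc (sInf K) c) = r) ∧
    (∀ f : ℕ → ℂ[X], (∀ n, 2 ≤ (f n).natDegree) → Complex.ofReal '' K ≠ {z | ¬ Fatou f z}) ∧
    (∀ f : ℕ → ℝ[X], (∀ n, Admissible (f n)) → K ≠ ⋂ n, comp f n ⁻¹' Icc (-1) 1) ∧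
    ∀ f : ℕ → ℂ[X], (∀ n, 2 ≤ (f n).natDegree) →
      Complex.ofReal '' K ≠ ⋂ n, comp f n ⁻¹' (Complex.ofReal '' Icc (-1) 1) := by
  obtain ⟨K, μ, g, h1, h2, h3, h4, h5, h6, h7, h8, h9, h10, h11⟩ := Pool.Agent.H.MP_25eb51_an.main
  have hD : Metric.diam K < 7 :=
    ((Metric.diam_mono h3 (Metric.isBounded_Icc _ _)).trans_eq (Real.diam_Icc (by norm_num))).trans_lt
      (by norm_num)
  obtain ⟨e1, e2⟩ := Pool.Agent.H.MP_7fabd3_an.is_min h2 hD h4 ENNReal.ofReal_lt_top h8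
  have e : energy 7 μ = ENNReal.ofReal (Real.log 7) := e1
  refine ⟨K, 7, μ, h2, hD, h1, h4, e ▸ ENNReal.ofReal_lt_top, e2, fun z => (h7 z).1, ?_,
    fun x hx => ?_, fun c hc => ?_, fun f hf k => h10 (f 0) (hf 0) fun x hx z hz => ?_,
    fun f hf k => h11 (f 0) (hf 0).1 (hf 0).2.1 (hf 0).2.2 (fun x hx => ?_) fun x hx y hy => ?_,
    fun f hf k => h10 (f 0) (hf 0) fun x hx z hz => ?_⟩
  · simpa only [fun z => (h7 z).2] using h5
  · rw [(h7 _).2, h6 x hx, e, ENNReal.toReal_ofReal (Real.log_nonneg (by norm_num)), sub_self]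
  · refine (h9 c hc).imp fun r hr => Eq.trans (measureReal_congr ?_) hr
    filter_upwards [show ∀ᵐ y ∂μ, y ∈ K from h4] with y hy
    exact propext ⟨fun a => a.2, fun a => ⟨csInf_le h2.bddBelow hy, a⟩⟩
  · have : (x : ℂ) ∈ {z | ¬ Fatou f z} := k ▸ mem_image_of_mem _ hx
    rw [k]
    exact fun a => this (fatou_sat (hf 0) hz a)
  · exact abs_le.2 (mem_iInter.1 (k ▸ hx) 0)
  · rw [k] at hx ⊢
    exact mem_iInter.2 fun n => by
      rw [mem_preimage, comp_eq f hy]; exact mem_iInter.1 hx n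
  · have : (x : ℂ) ∈ ⋂ n, comp f n ⁻¹' (Complex.ofReal '' Icc (-1) 1) := k ▸ mem_image_of_mem _ hx
    rw [k]
    exact mem_iInter.2 fun n => by
      rw [mem_preimage, comp_eq f hz]; exact mem_iInter.1 this n

end Pool.Agent.Results.MP_25eb51_an.No
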